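import Pool.Agent.Lib.MP_94ed3e_ag.Proof

/-!
# A multigraded Hilbert scheme that is a fat point

We take `S = k[x, y, z]`, graded by `ℤ × ℤ` with `deg x = (1, 0)`, `deg y = (0, 1)`,
`deg z = (1, 1)`, and the Hilbert function `hilb` of
`S / (x ^ 2, x * y ^ 2, x * y * z, x * z ^ 2, z ^ 3)`.
For every field `k` the multigraded Hilbert scheme is `Spec k[ε]` with `ε ^ 2 = 0`:
its `R`-points are the ideals
`(x ^ 2, x * y ^ 2 + b * y * z, x * y * z + b * z ^ 2, x * z ^ 2, z ^ 3)` with `b ^ 2 = 0`.
-/

set_option autoImplicit false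

open CategoryTheory Opposite AlgebraicGeometry Limits

universe u

namespace Pool.Agent.Results.MP_94ed3e_ag.FatPointComponent

open Pool.Agent.Lib.MP_94ed3e_ag

/-- **Main theorem.** For every field `k`, the multigraded Hilbert scheme of `k[x, y, z]` with
grading group `ℤ × ℤ`, degrees `(1, 0)`, `(0, 1)`, `(1, 1)` and Hilbert function `hilb` exists and
is isomorphic to `Spec k[ε]` (`ε ^ 2 = 0`); it has a connected component that is a fat point. -/
theorem result (k : Type u) [Field k] :
    (∃ X : Over (Spec (CommRingCat.of k)), IsMultigradedHilbertScheme k wt hilb X) ∧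
    ∀ X : Over (Spec (CommRingCat.of k)), IsMultigradedHilbertScheme k wt hilb X →
      Nonempty (X ≅ specDual k) ∧
      ∃ U : X.left.Opens, IsConnectedComponent U ∧ IsFatPoint k (Over.mk (U.ι ≫ X.hom)) := by
  refine ⟨⟨specDual k, ⟨representingIso k⟩⟩, ?_⟩
  rintro X ⟨α⟩
  have hX : Nonempty (X ≅ specDual k) :=
    iso_of_functor_iso k (CommAlgCat.of k (DualNumber k)) X (α ≪≫ (representingIso k).symm)
  refine ⟨hX, ⊤, ⟨?_, ?_⟩, ?_⟩
  · exact isClosed_univ
  · have : ConnectedSpace X.left := connected_of_iso k X hX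
    exact isConnected_univ
  · apply specDual_isFatPoint
    obtain ⟨e⟩ := hX
    exact ⟨(Over.isoMk (Scheme.topIso X.left) rfl : Over.mk _ ≅ X) ≪≫ e⟩

end Pool.Agent.Results.MP_94ed3e_ag.FatPointComponent
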